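import Pool.Agent.U263.OC.C

/-!
# Atomic and exposed condition for one-dimensional integrands in all codimensions

A `1`-integrand is a positive function `F` of the lines of `ℝ^n`, here only assumed to be differentiable as a function
`x ↦ F (span x)` on `ℝ^n` without the origin (in particular all integrands of class `C^1`). For the line `T = span v` and
a matrix `L` the deformed line is `π_t = span (v + t L v)` and the Jacobian of `I + t L` on `T` is
`J_t = |v + t L v| / |v|`. The Gauss image consists of the matrices `A = B_F(T) / F(T)`, that is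
`F(T) (A • L) = d/dt F(π_t) J_t` at `t = 0` for all `L`, where `A • L = trace (Aᵗ L)`.

**Theorem.** For all `n` and all such `F`, the atomic condition, the exposed condition, and the strict convexity of the
even one-homogeneous function `x ↦ F (span x) |x|` are equivalent.

Proof. Let `φ x = F (span x) |x|`. The Gauss image consists of the matrices `∇φ(v) ⊗ v / φ(v)`. Assume the atomic
condition. Let `K` be the convex hull of `S = {φ = 1}`, let `v` be in `S`, and let `r v` be the last point of `K` on the
ray of `v`, with a supporting functional `l`. Then `r v = ∑ c_i z_i` with `z_i` in `S` and `l (z_i) = 1`, so that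
`∇φ(z_i) = l`, and `l ⊗ r v = ∑ c_i l ⊗ z_i` is a matrix of rank one in the convex hull of the Gauss image. So it is an
extreme point, and `z_i = r v`. It follows that `∇φ(v) ≤ φ`, and in the same way that equality holds only on the ray of
`v`. Then `A ↦ A • (b ⊗ ∇φ(b))` exposes the point of `b`, because
`(∇φ(v) ⊗ v) • (b ⊗ ∇φ(b)) = (∇φ(v) b) (∇φ(b) v) ≤ φ(b) φ(v)`.
-/

set_option autoImplicit false

namespace Pool.Agent.Results.MP_0db605_an.OneDimensionalIntegrands

open Set Module Pool.Agent.U263.OC

noncomputable section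

variable {n : ℕ}

/-- the vector `L v` -/
def act (L : Matrix (Fin n) (Fin n) ℝ) (v : E n) : E n := WithLp.toLp 2 (L.mulVec v.ofLp)

/-- the inner product `A • L = trace (Aᵗ L)` -/
def ip (A L : Matrix (Fin n) (Fin n) ℝ) : ℝ := (A.transpose * L).trace

/-- `1`-integrands: `F T` matters only for the lines `T`; it is positive, and differentiable as a function of a nonzero
vector of the line (this holds for all integrands of class `C^1`) -/
structure Integrand (F : Submodule ℝ (E n) → ℝ) : Prop where
  pos : ∀ v : E n, v ≠ 0 → 0 < F (Submodule.span ℝ {v})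
  diff : ∀ v : E n, v ≠ 0 → DifferentiableAt ℝ (fun x : E n => F (Submodule.span ℝ {x})) v

/-- the Gauss image: the matrices `A = B_F(T) / F(T)`, `T = span v`: for all `L`, the derivative at `0` of
`F(π_t) J_t`, `π_t = span (v + t L v)`, `J_t = |v + t L v| / |v|`, is `F(T) (A • L)` -/
def gauss (F : Submodule ℝ (E n) → ℝ) : Set (Matrix (Fin n) (Fin n) ℝ) :=
  {A | ∃ v : E n, v ≠ 0 ∧ ∀ L : Matrix (Fin n) (Fin n) ℝ,
    HasDerivAt (fun t : ℝ => F (Submodule.span ℝ {v + t • act L v}) * (‖v + t • act L v‖ / ‖v‖))
      (F (Submodule.span ℝ {v}) * ip A L) 0}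

/-- the atomic condition -/
def AC (F : Submodule ℝ (E n) → ℝ) : Prop :=
  convexHull ℝ (gauss F) ∩ {A | A.rank ≤ 1} = gauss F ∧ gauss F = (convexHull ℝ (gauss F)).extremePoints ℝ

/-- the exposed condition -/
def EC (F : Submodule ℝ (E n) → ℝ) : Prop :=
  convexHull ℝ (gauss F) ∩ {A | A.rank ≤ 1} = gauss F ∧ gauss F = (convexHull ℝ (gauss F)).exposedPoints ℝ

/-- the even one-homogeneous function of an integrand -/
def phi (F : Submodule ℝ (E n) → ℝ) (x : E n) : ℝ := F (Submodule.span ℝ {x}) * ‖x‖

/-- strict convexity: `phi (v + w) < phi v + phi w` unless `w` is parallel to `v` -/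
def StrictlyConvex (F : Submodule ℝ (E n) → ℝ) : Prop :=
  ∀ v w : E n, v ≠ 0 → (∀ c : ℝ, w ≠ c • v) → phi F (v + w) < phi F v + phi F w

lemma span_smul' (c : ℝ) (hc : c ≠ 0) (x : E n) : Submodule.span ℝ {c • x} = Submodule.span ℝ {x} :=
  Submodule.span_singleton_smul_eq (IsUnit.mk0 c hc) x

lemma good {F : Submodule ℝ (E n) → ℝ} (hF : Integrand F) : Good (phi F) := by
  have hd : ∀ x : E n, x ≠ 0 → DifferentiableAt ℝ (phi F) x := fun x hx =>
    (hF.diff x hx).mul (differentiableAt_id.norm ℝ hx)
  refine ⟨fun x hx => mul_pos (hF.pos x hx) (norm_pos_iff.mpr hx), ?_, hd, ?_⟩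
  · intro c x
    by_cases hc : c = 0
    · subst hc
      simp [phi]
    · rw [phi, phi, span_smul' c hc x, norm_smul, Real.norm_eq_abs]
      ring
  · rw [continuous_iff_continuousAt]
    intro x
    by_cases hx : x = 0
    · subst hx
      have hc : IsCompact (Metric.sphere (0 : E n) 1) := isCompact_sphere 0 1
      have hcont : ContinuousOn (fun x : E n => F (Submodule.span ℝ {x})) (Metric.sphere (0 : E n) 1) := by
        intro y hy
        refine (hF.diff y ?_).continuousAt.continuousWithinAt
        rintro rfl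
        simp at hy
      obtain ⟨C, hC⟩ := hc.exists_bound_of_continuousOn hcont
      have h0 : phi F 0 = 0 := by simp [phi]
      have hb : ∀ y : E n, ‖phi F y - 0‖ ≤ C * ‖y‖ := by
        intro y
        rw [sub_zero]
        by_cases hy : y = 0
        · subst hy
          simp [phi]
        · have hn : 0 < ‖y‖ := norm_pos_iff.mpr hy
          have hu : ‖y‖⁻¹ • y ∈ Metric.sphere (0 : E n) 1 := by
            rw [mem_sphere_zero_iff_norm, norm_smul, norm_inv, norm_norm]
            exact inv_mul_cancel₀ hn.ne'
          have h1 := hC _ hu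
          rw [span_smul' _ (inv_ne_zero hn.ne') y] at h1
          rw [phi, norm_mul, norm_norm]
          exact mul_le_mul_of_nonneg_right h1 hn.le
      rw [ContinuousAt, h0]
      rw [tendsto_iff_norm_sub_tendsto_zero]
      refine squeeze_zero (fun y => norm_nonneg _) hb ?_
      have : Filter.Tendsto (fun y : E n => C * ‖y‖) (nhds 0) (nhds (C * ‖(0 : E n)‖)) :=
        (continuous_const.mul continuous_norm).tendsto 0
      simpa using this
    · exact (hd x hx).continuousAt

lemma hasDeriv {F : Submodule ℝ (E n) → ℝ} (hF : Integrand F) (v : E n) (hv : v ≠ 0) (L : Matrix (Fin n) (Fin n) ℝ) :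
    HasDerivAt (fun t : ℝ => F (Submodule.span ℝ {v + t • act L v}) * (‖v + t • act L v‖ / ‖v‖))
      (fderiv ℝ (phi F) v (act L v) / ‖v‖) 0 := by
  have h1 : HasDerivAt (fun t : ℝ => phi F (v + t • act L v)) (fderiv ℝ (phi F) v (act L v)) 0 := by
    have h2 : HasFDerivAt (phi F) (fderiv ℝ (phi F) v) (v + (0 : ℝ) • act L v) := by
      rw [zero_smul, add_zero]
      exact ((good hF).diff v hv).hasFDerivAt
    have h3 : HasDerivAt (fun t : ℝ => v + t • act L v) (act L v) 0 := by
      have := ((hasDerivAt_id (0 : ℝ)).smul_const (act L v)).const_add v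
      simpa using this
    exact h2.comp_hasDerivAt 0 h3
  have h4 := h1.div_const ‖v‖
  refine h4.congr_of_eventuallyEq (Filter.Eventually.of_forall fun t => ?_)
  simp only [phi]
  rw [mul_div_assoc]

lemma ip_eq (A M : Matrix (Fin n) (Fin n) ℝ) : ip A M = ∑ i, ∑ j, A i j * M i j := pr_eq A M

lemma der_act (φ : E n → ℝ) (v : E n) (L : Matrix (Fin n) (Fin n) ℝ) :
    fderiv ℝ φ v (act L v) = ∑ i, ∑ j, gr φ v i * v j * L i j := by
  rw [gr_sum]
  refine Finset.sum_congr rfl fun i _ => ?_
  have : act L v i = ∑ j, L i j * v j := rfl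
  rw [this, Finset.mul_sum]
  exact Finset.sum_congr rfl fun j _ => by ring

lemma gauss_eq {F : Submodule ℝ (E n) → ℝ} (hF : Integrand F) : gauss F = GI (phi F) := by
  have hg := good hF
  have key : ∀ v : E n, v ≠ 0 → ∀ L : Matrix (Fin n) (Fin n) ℝ,
      F (Submodule.span ℝ {v}) * ip (Am (phi F) v) L = fderiv ℝ (phi F) v (act L v) / ‖v‖ := by
    intro v hv L
    have hn : 0 < ‖v‖ := norm_pos_iff.mpr hv
    have hFp := hF.pos v hv
    rw [ip_eq, der_act]
    have h1 : ∑ i, ∑ j, Am (phi F) v i j * L i j = (phi F v)⁻¹ * ∑ i, ∑ j, gr (phi F) v i * v j * L i j := by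
      rw [Finset.mul_sum]
      refine Finset.sum_congr rfl fun i _ => ?_
      rw [Finset.mul_sum]
      refine Finset.sum_congr rfl fun j _ => ?_
      rw [Am, Matrix.smul_apply, Matrix.vecMulVec_apply, smul_eq_mul]
      ring
    rw [h1]
    have h2 : phi F v = F (Submodule.span ℝ {v}) * ‖v‖ := rfl
    rw [h2]
    field_simp
  apply Subset.antisymm
  · rintro A ⟨v, hv, hA⟩
    refine ⟨v, hv, ?_⟩
    have hFp := hF.pos v hv
    ext i j
    have h1 := (hA (Matrix.single i j 1)).unique (hasDeriv hF v hv (Matrix.single i j 1))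
    rw [← key v hv] at h1
    have h2 := mul_left_cancel₀ hFp.ne' h1
    have h3 : ∀ B : Matrix (Fin n) (Fin n) ℝ, ip B (Matrix.single i j 1) = B i j := by
      intro B
      rw [ip_eq, Finset.sum_eq_single i, Finset.sum_eq_single j]
      · simp
      · intro k _ hk
        simp [Matrix.single_apply, Ne.symm hk]
      · intro hc
        exact absurd (Finset.mem_univ _) hc
      · intro k _ hk
        refine Finset.sum_eq_zero fun l _ => ?_
        simp [Matrix.single_apply, Ne.symm hk]
      · intro hc
        exact absurd (Finset.mem_univ _) hc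
    rw [h3, h3] at h2
    exact h2
  · rintro _ ⟨v, hv, rfl⟩
    refine ⟨v, hv, fun L => ?_⟩
    rw [key v hv L]
    exact hasDeriv hF v hv L

/-- For all `n` and all differentiable (in particular all `C^1`) positive `1`-integrands `F` on `ℝ^n`: the atomic
condition holds if and only if the exposed condition holds, and if and only if the even one-homogeneous function
`x ↦ F (span x) |x|` is strictly convex. -/
theorem result (n : ℕ) (F : Submodule ℝ (E n) → ℝ) (hF : Integrand F) :
    (AC F ↔ EC F) ∧ (AC F ↔ StrictlyConvex F) := by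
  have hg := good hF
  have he := gauss_eq hF
  have h1 : AC F → SP (phi F) := by
    rintro ⟨hr, hx⟩
    rw [he] at hr hx
    apply sp_of_ex hg
    intro A hA hrk
    rw [← hx, ← hr]
    exact ⟨hA, hrk⟩
  have h2 : SP (phi F) → EC F := by
    intro hs
    refine ⟨by rw [he]; exact ranks hg hs, ?_⟩
    rw [he]
    exact Subset.antisymm (exposed hg hs)
      (exposedPoints_subset_extremePoints.trans extremePoints_convexHull_subset)
  have h3 : EC F → AC F := by
    rintro ⟨hr, hx⟩
    refine ⟨hr, Subset.antisymm ?_ extremePoints_convexHull_subset⟩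
    conv_lhs => rw [hx]
    exact exposedPoints_subset_extremePoints
  have h4 : SP (phi F) ↔ StrictlyConvex F := ⟨fun h => sc_of_sp hg h, fun h => sp_of_sc hg h⟩
  exact ⟨⟨fun h => h2 (h1 h), h3⟩, ⟨fun h => h4.mp (h1 h), fun h => h3 (h2 (h4.mpr h))⟩⟩

end

end Pool.Agent.Results.MP_0db605_an.OneDimensionalIntegrands
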